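import Pool.Agent.V11246.CubeX

/-!
# In ZF, every Cantor cube is strongly zero-dimensional

In every model of Zermelo set theory (so in every model of ZF), for every set `j` the Cantor cube
of the functions from `j` to a two element set, with the product topology, is strongly
zero-dimensional. By the completeness theorem this says that Zermelo set theory proves it.

Outline of the proof (everything is done inside an arbitrary, possibly nonstandard, model). Let `U`
and `V` be disjoint open subsets of the cube. If a cylinder is contained in `V`, then its literals
meet, for every cylinder contained in `U`, the set of the opposite literals. There are only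
finitely many minimal sets of at most `n` literals that do so; let `E n` be the set of their
coordinates. If `x` is in a cylinder of `U` over the finite set `F` and `y` is in `V`, then `x`
and `y` differ at a point of `F` that is in some `E n`. Now let `f` be a continuous function with
values in the unit interval. Applying this to the sets `f < 2/3`, `f > 2/3` and `f > 1/3`,
`f < 1/3`, we get an increasing sequence of finite sets `E n` such that for every `x` there is
`n` such that `f ≤ 2/3` for all points that agree with `x` on `E n`, or `1/3 ≤ f` for all such
points. Let `C` be the set of the `x` such that the first alternative holds for the least such `n`.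
Then `C` is clopen, contains the zeros of `f`, and `f` is not one on `C`.
-/

namespace Pool.Agent.Results.MP_fa4505_lc.CubesStronglyZeroDim

open FirstOrder FirstOrder.Language
open Pool.Agent.Helper672.Plain (LSet Zermelo)
open Pool.Agent.H310Top (IsTopology)
open Pool.Agent.V11246 (IsTwo IsFunSet IsCubeTop IsStronglyZeroDim)

universe u

/-- For all sets `j` and `d` the set `c` of the functions from `j` to `d` and the product topology
`t` exist, and if `d` has two elements then the space is strongly zero-dimensional. -/
theorem result (M : Type u) [LSet.Structure M] [Zermelo M] :
    (∀ j d : M, ∃ c t, IsFunSet c j d ∧ IsCubeTop t c j ∧ IsTopology t c) ∧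
    ∀ j d c t : M, IsTwo d → IsFunSet c j d → IsCubeTop t c j → IsStronglyZeroDim t c :=
  ⟨Pool.Agent.Helper672.ZFA.V246.exists_cube,
    fun _ _ _ _ => Pool.Agent.Helper672.ZFA.V246.isStronglyZeroDim⟩

end Pool.Agent.Results.MP_fa4505_lc.CubesStronglyZeroDim
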